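import Pool.Agent.W559.Et.Stm3

/-! # The atlas of level zero (ET-BASE) -/

set_option autoImplicit false

universe u

namespace Pool.Agent.W338.ET

open Pool.Agent.W559.Mg Pool.Agent.W559.Et

section

variable {k K : Type u} [Field k] [Field K] [Algebra k K]

theorem mem_CB (h : K →ₐ[k] K) (ω : k) (hω : ω ≠ 0) (B : Subalgebra k K) (f : ML K G3) :
    f ∈ CB h ω B ↔
      ∀ d, f.coeff d ∈ B ∧ h (f.coeff d) = algebraMap k K (ω ^ co3 d) * f.coeff d := by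
  classical
  constructor
  · intro hf
    unfold CB at hf
    induction hf using Algebra.adjoin_induction with
    | mem x hx =>
      obtain ⟨e, a, ha, he, rfl⟩ := hx
      intro d
      rw [coeff_mo]
      split_ifs with h1
      · rw [← h1]
        exact ⟨ha, he⟩
      · exact ⟨B.zero_mem, by rw [map_zero, mul_zero]⟩
    | algebraMap r =>
      intro d
      rw [algebraMap_ML, coeff_mo]
      split_ifs with h1
      · rw [← h1]
        refine ⟨B.algebraMap_mem r, ?_⟩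
        rw [map_zero, zpow_zero, map_one, one_mul, AlgHom.commutes]
      · exact ⟨B.zero_mem, by rw [map_zero, mul_zero]⟩
    | add x y _ _ hx hy =>
      intro d
      rw [coeff_add']
      refine ⟨B.add_mem (hx d).1 (hy d).1, ?_⟩
      rw [map_add, (hx d).2, (hy d).2, mul_add]
    | mul x y _ _ hx hy =>
      intro d
      rw [coeff_mul_sum]
      refine ⟨B.sum_mem fun a _ => B.mul_mem (hx a).1 (hy _).1, ?_⟩
      rw [map_sum, Finset.mul_sum]
      refine Finset.sum_congr rfl fun a _ => ?_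
      have e1 : ω ^ co3 d = ω ^ co3 a * ω ^ co3 (d - a) := by
        rw [← zpow_add₀ hω, ← map_add, add_sub_cancel]
      rw [map_mul, (hx a).2, (hy (d - a)).2, e1, map_mul]
      ring
  · intro hf
    exact mem_of_comp _ fun d => Algebra.subset_adjoin ⟨d, f.coeff d, (hf d).1, (hf d).2, rfl⟩

theorem mo_mem_CB (h : K →ₐ[k] K) (ω : k) (B : Subalgebra k K) (d : G3) (a : K)
    (ha : a ∈ B) (he : h a = algebraMap k K (ω ^ co3 d) * a) : mo d a ∈ CB h ω B :=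
  Algebra.subset_adjoin ⟨d, a, ha, he, rfl⟩

/-- the automorphism -/
theorem exists_equiv (γ : K →ₐ[k] K) (N : ℕ) (hN : 0 < N) (h : ∀ x, γ^[N] x = x) :
    ∃ g : K ≃ₐ[k] K, (∀ x, g x = γ x) ∧ (∀ n : ℕ, ∀ x, (g ^ n) x = γ^[n] x) := by
  have hsurj : Function.Surjective γ := fun x => by
    refine ⟨γ^[N - 1] x, ?_⟩
    rw [← Function.iterate_succ_apply' γ, Nat.succ_eq_add_one, Nat.sub_add_cancel hN]
    exact h x
  obtain ⟨g, hg⟩ : ∃ g : K ≃ₐ[k] K, ∀ x, g x = γ x :=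
    ⟨AlgEquiv.ofBijective γ ⟨γ.toRingHom.injective, hsurj⟩, fun x => rfl⟩
  refine ⟨g, hg, fun n => ?_⟩
  induction n with
  | zero => intro x; rfl
  | succ n ih =>
    intro x
    rw [pow_succ', Function.iterate_succ_apply', ← ih, ← hg]
    rfl

theorem eig (γ h : K →ₐ[k] K) (p M : ℕ) (ω : k) (G : GD γ h p M ω) :
    ∃ (g g' : K ≃ₐ[k] K) (n : ℕ), 0 < n ∧ (∀ x, g x = γ x) ∧ (∀ x, g' x = h x) ∧ g ^ n = 1 ∧
      g' ^ M = 1 ∧ Commute g g' ∧
      ∃ y : K, y ≠ 0 ∧ γ y = y ∧ h y = algebraMap k K ω * y := by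
  obtain ⟨g, hg, hgn⟩ := exists_equiv γ (p * p) (Nat.mul_pos G.pp.pos G.pp.pos) G.g
  obtain ⟨g', hg', hgn'⟩ := exists_equiv h M G.M0 G.hM
  have hcomm : Commute g g' := by
    ext x
    show g (g' x) = g' (g x)
    rw [hg, hg', hg, hg', G.c]
  have hgp : g ^ (p * p) = 1 := by
    ext x
    rw [hgn]
    exact G.g x
  have hgM : g' ^ M = 1 := by
    ext x
    rw [hgn']
    exact G.hM x
  obtain ⟨n, hn⟩ : ∃ n : ℕ, n = orderOf g := ⟨_, rfl⟩
  have hn1 : n ∣ p * p := hn ▸ orderOf_dvd_of_pow_eq_one hgp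
  have hn0 : 0 < n := Nat.pos_of_dvd_of_pos hn1 (Nat.mul_pos G.pp.pos G.pp.pos)
  have hgn1 : g ^ n = 1 := hn ▸ pow_orderOf_eq_one g
  have hoM : orderOf g' = M := by
    rw [orderOf_eq_iff G.M0]
    refine ⟨hgM, fun m hm hm0 h1 => ?_⟩
    obtain ⟨x, hx⟩ := G.ho m hm0 hm
    apply hx
    rw [← hgn', h1]
    rfl
  have hcop : Nat.Coprime (p * p) M := by
    have : Nat.Coprime p M := (Nat.Prime.coprime_iff_not_dvd G.pp).2 (by
      rintro ⟨c, hc⟩
      apply G.Mk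
      rw [hc, Nat.cast_mul, G.pk, zero_mul])
    exact Nat.Coprime.mul_left this this
  have hcop' : Nat.Coprime n M := Nat.Coprime.coprime_dvd_left hn1 hcop
  have hω0 : ω ≠ 0 := G.om.ne_zero G.M0.ne'
  refine ⟨g, g', n, hn0, hg, hg', hgn1, hgM, hcomm, ?_⟩
  -- independence of characters
  obtain ⟨Φ, hΦ⟩ : ∃ Φ : Fin n × Fin M → (K →* K), Φ = fun q =>
      ((g ^ (q.1 : ℕ) * g' ^ (q.2 : ℕ) : K ≃ₐ[k] K) : K →* K) := ⟨_, rfl⟩
  have hΦa : ∀ q x, Φ q x = (g ^ (q.1 : ℕ) * g' ^ (q.2 : ℕ) : K ≃ₐ[k] K) x := fun q x => by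
    rw [hΦ]
    rfl
  have hΦi : Function.Injective Φ := by
    intro q q' hqq
    have e1 : (g ^ (q.1 : ℕ) * g' ^ (q.2 : ℕ) : K ≃ₐ[k] K) =
        g ^ (q'.1 : ℕ) * g' ^ (q'.2 : ℕ) := by
      ext x
      rw [← hΦa, ← hΦa, hqq]
    have hp1 : ∀ a b : ℕ, (g ^ a * g' ^ b) ^ n = g' ^ (b * n) := fun a b => by
      rw [(hcomm.pow_pow a b).mul_pow, ← pow_mul, ← pow_mul, mul_comm a n, pow_mul g n a, hgn1,
        one_pow, one_mul]
    have hp2 : ∀ a b : ℕ, (g ^ a * g' ^ b) ^ M = g ^ (a * M) := fun a b => by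
      rw [(hcomm.pow_pow a b).mul_pow, ← pow_mul, ← pow_mul, mul_comm b M, pow_mul g' M b, hgM,
        one_pow, mul_one]
    have e2 := congrArg (fun z : K ≃ₐ[k] K => z ^ n) e1
    have e3 := congrArg (fun z : K ≃ₐ[k] K => z ^ M) e1
    beta_reduce at e2 e3
    rw [hp1, hp1, pow_eq_pow_iff_modEq, hoM] at e2
    rw [hp2, hp2, pow_eq_pow_iff_modEq, ← hn] at e3
    have e4 : (q.2 : ℕ) ≡ q'.2 [MOD M] := Nat.ModEq.cancel_right_of_coprime hcop'.symm e2
    have e5 : (q.1 : ℕ) ≡ q'.1 [MOD n] := Nat.ModEq.cancel_right_of_coprime hcop' e3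
    ext
    · rw [Nat.ModEq, Nat.mod_eq_of_lt q.1.2, Nat.mod_eq_of_lt q'.1.2] at e5
      exact e5
    · rw [Nat.ModEq, Nat.mod_eq_of_lt q.2.2, Nat.mod_eq_of_lt q'.2.2] at e4
      exact e4
  have hli := (linearIndependent_monoidHom K K).comp Φ hΦi
  rw [Fintype.linearIndependent_iff] at hli
  have hex : ∃ x : K, ∑ q : Fin n × Fin M, algebraMap k K ((ω⁻¹) ^ (q.2 : ℕ)) * Φ q x ≠ 0 := by
    by_contra hcon
    push Not at hcon
    have h1 := hli (fun q => algebraMap k K ((ω⁻¹) ^ (q.2 : ℕ))) (by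
      funext x
      rw [Finset.sum_apply]
      exact hcon x) (⟨0, hn0⟩, ⟨0, G.M0⟩)
    simp at h1
  obtain ⟨x, hx⟩ := hex
  refine ⟨_, hx, ?_, ?_⟩
  · -- the action of g
    have e1 : ∀ z : ℕ → ℕ → K, (∑ q : Fin n × Fin M, z q.1 q.2) =
        ∑ i ∈ Finset.range n, ∑ j ∈ Finset.range M, z i j := by
      intro z
      rw [Fintype.sum_prod_type, Finset.sum_range]
      refine Finset.sum_congr rfl fun i _ => ?_
      rw [Finset.sum_range]
    have e2 := e1 fun i j => algebraMap k K ((ω⁻¹) ^ j) * (g ^ i * g' ^ j : K ≃ₐ[k] K) x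
    have e3 : ∑ q : Fin n × Fin M, algebraMap k K ((ω⁻¹) ^ (q.2 : ℕ)) * Φ q x =
        ∑ i ∈ Finset.range n, ∑ j ∈ Finset.range M,
          algebraMap k K ((ω⁻¹) ^ j) * (g ^ i * g' ^ j : K ≃ₐ[k] K) x := by
      rw [← e2]
      exact Finset.sum_congr rfl fun q _ => by rw [hΦa]
    rw [e3, map_sum]
    obtain ⟨F, hF⟩ : ∃ F : ℕ → K, F = fun i => ∑ j ∈ Finset.range M,
      algebraMap k K ((ω⁻¹) ^ j) * (g ^ i * g' ^ j : K ≃ₐ[k] K) x := ⟨_, rfl⟩
    have e4 : ∀ i, γ (F i) = F (i + 1) := by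
      intro i
      rw [hF]
      show γ (∑ j ∈ Finset.range M, algebraMap k K ((ω⁻¹) ^ j) * (g ^ i * g' ^ j : K ≃ₐ[k] K) x) = _
      rw [map_sum]
      refine Finset.sum_congr rfl fun j _ => ?_
      rw [map_mul, AlgHom.commutes, ← hg, pow_succ' g i]
      rfl
    have e5 : F n = F 0 := by
      rw [hF]
      show ∑ j ∈ Finset.range M, algebraMap k K ((ω⁻¹) ^ j) * (g ^ n * g' ^ j : K ≃ₐ[k] K) x =
        ∑ j ∈ Finset.range M, algebraMap k K ((ω⁻¹) ^ j) * (g ^ 0 * g' ^ j : K ≃ₐ[k] K) x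
      rw [hgn1, pow_zero]
    have e6 : ∑ i ∈ Finset.range n, γ (F i) = ∑ i ∈ Finset.range n, F i := by
      simp_rw [e4]
      have h1 := Finset.sum_range_succ F n
      rw [Finset.sum_range_succ', e5] at h1
      exact add_right_cancel h1
    rw [hF] at e6
    exact e6
  · have e1 : ∀ z : ℕ → ℕ → K, (∑ q : Fin n × Fin M, z q.1 q.2) =
        ∑ j ∈ Finset.range M, ∑ i ∈ Finset.range n, z i j := by
      intro z
      rw [Fintype.sum_prod_type_right, Finset.sum_range]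
      refine Finset.sum_congr rfl fun i _ => ?_
      rw [Finset.sum_range]
    have e2 := e1 fun i j => algebraMap k K ((ω⁻¹) ^ j) * (g ^ i * g' ^ j : K ≃ₐ[k] K) x
    have e3 : ∑ q : Fin n × Fin M, algebraMap k K ((ω⁻¹) ^ (q.2 : ℕ)) * Φ q x =
        ∑ j ∈ Finset.range M, ∑ i ∈ Finset.range n,
          algebraMap k K ((ω⁻¹) ^ j) * (g ^ i * g' ^ j : K ≃ₐ[k] K) x := by
      rw [← e2]
      exact Finset.sum_congr rfl fun q _ => by rw [hΦa]
    rw [e3, map_sum, Finset.mul_sum]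
    obtain ⟨F, hF⟩ : ∃ F : ℕ → K, F = fun j => ∑ i ∈ Finset.range n,
      algebraMap k K ((ω⁻¹) ^ j) * (g ^ i * g' ^ j : K ≃ₐ[k] K) x := ⟨_, rfl⟩
    have e4 : ∀ j, h (F j) = algebraMap k K ω * F (j + 1) := by
      intro j
      rw [hF]
      show h (∑ i ∈ Finset.range n, algebraMap k K ((ω⁻¹) ^ j) * (g ^ i * g' ^ j : K ≃ₐ[k] K) x) =
        algebraMap k K ω * ∑ i ∈ Finset.range n,
          algebraMap k K ((ω⁻¹) ^ (j + 1)) * (g ^ i * g' ^ (j + 1) : K ≃ₐ[k] K) x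
      rw [map_sum, Finset.mul_sum]
      refine Finset.sum_congr rfl fun i _ => ?_
      rw [map_mul, AlgHom.commutes, ← hg', ← mul_assoc, ← map_mul, pow_succ (ω⁻¹) j,
        mul_comm ω, mul_assoc, inv_mul_cancel₀ hω0, mul_one]
      congr 1
      have h1 : g' * (g ^ i * g' ^ j) = g ^ i * g' ^ (j + 1) := by
        rw [← mul_assoc, ← (hcomm.pow_left i).eq, mul_assoc, ← pow_succ']
      rw [← h1]
      rfl
    have e5 : F M = F 0 := by
      rw [hF]
      show ∑ i ∈ Finset.range n, algebraMap k K ((ω⁻¹) ^ M) * (g ^ i * g' ^ M : K ≃ₐ[k] K) x =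
        ∑ i ∈ Finset.range n, algebraMap k K ((ω⁻¹) ^ 0) * (g ^ i * g' ^ 0 : K ≃ₐ[k] K) x
      rw [hgM, pow_zero, pow_zero, inv_pow, G.om.pow_eq_one, inv_one]
    have e6 : ∑ j ∈ Finset.range M, h (F j) = ∑ j ∈ Finset.range M, algebraMap k K ω * F j := by
      simp_rw [e4]
      rw [← Finset.mul_sum, ← Finset.mul_sum]
      congr 1
      have h1 := Finset.sum_range_succ F M
      rw [Finset.sum_range_succ', e5] at h1
      exact add_right_cancel h1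
    rw [hF] at e6
    exact e6

theorem eigB (γ h : K →ₐ[k] K) (p M : ℕ) (ω : k) (G : GD γ h p M ω) (B : Subalgebra k K)
    (hg : ∀ x ∈ B, γ x ∈ B) (hh : ∀ x ∈ B, h x ∈ B)
    (hfr : ∀ x, ∃ a ∈ B, ∃ b ∈ B, b ≠ 0 ∧ x = a / b) :
    ∃ y ∈ B, y ≠ 0 ∧ γ y = y ∧ h y = algebraMap k K ω * y := by
  classical
  obtain ⟨g, g', n, hn0, hga, hga', hgn, hgM, hcomm, y, hy0, hy1, hy2⟩ := eig γ h p M ω G
  obtain ⟨a, ha, b, hb, hb0, hyab⟩ := hfr y
  have hmem : ∀ i j : ℕ, (g ^ i * g' ^ j : K ≃ₐ[k] K) b ∈ B := by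
    intro i j
    have h1 : ∀ j : ℕ, (g' ^ j : K ≃ₐ[k] K) b ∈ B := by
      intro j
      induction j with
      | zero => exact hb
      | succ j ih =>
        rw [pow_succ']
        show g' ((g' ^ j : K ≃ₐ[k] K) b) ∈ B
        rw [hga']
        exact hh _ ih
    induction i with
    | zero => rw [pow_zero, one_mul]; exact h1 j
    | succ i ih =>
      rw [pow_succ', mul_assoc]
      show g ((g ^ i * g' ^ j : K ≃ₐ[k] K) b) ∈ B
      rw [hga]
      exact hg _ ih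
  obtain ⟨N, hN⟩ : ∃ N : K, N = ∏ i ∈ Finset.range n, ∏ j ∈ Finset.range M,
    (g ^ i * g' ^ j : K ≃ₐ[k] K) b := ⟨_, rfl⟩
  have hN0 : N ≠ 0 := by
    rw [hN]
    refine Finset.prod_ne_zero_iff.2 fun i _ => Finset.prod_ne_zero_iff.2 fun j _ => ?_
    exact (map_ne_zero_iff _ (AlgEquiv.injective _)).2 hb0
  have hN1 : γ N = N := by
    rw [hN, map_prod]
    obtain ⟨F, hF⟩ : ∃ F : ℕ → K, F = fun i => ∏ j ∈ Finset.range M,
      (g ^ i * g' ^ j : K ≃ₐ[k] K) b := ⟨_, rfl⟩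
    have e4 : ∀ i, γ (F i) = F (i + 1) := by
      intro i
      rw [hF]
      show γ (∏ j ∈ Finset.range M, (g ^ i * g' ^ j : K ≃ₐ[k] K) b) = _
      rw [map_prod]
      refine Finset.prod_congr rfl fun j _ => ?_
      rw [← hga, pow_succ' g i]
      rfl
    have hFn : ∀ i, F i ≠ 0 := by
      intro i
      rw [hF]
      exact Finset.prod_ne_zero_iff.2 fun j _ => (map_ne_zero_iff _ (AlgEquiv.injective _)).2 hb0
    have e5 : F n = F 0 := by
      rw [hF]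
      show ∏ j ∈ Finset.range M, (g ^ n * g' ^ j : K ≃ₐ[k] K) b =
        ∏ j ∈ Finset.range M, (g ^ 0 * g' ^ j : K ≃ₐ[k] K) b
      rw [hgn, pow_zero]
    have e6 : ∏ i ∈ Finset.range n, γ (F i) = ∏ i ∈ Finset.range n, F i := by
      simp_rw [e4]
      have h1 := Finset.prod_range_succ F n
      rw [Finset.prod_range_succ', e5] at h1
      exact mul_right_cancel₀ (hFn 0) h1
    rw [hF] at e6
    exact e6
  have hN2 : h N = N := by
    rw [hN, map_prod]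
    refine Finset.prod_congr rfl fun i _ => ?_
    rw [map_prod]
    obtain ⟨F, hF⟩ : ∃ F : ℕ → K, F = fun j => (g ^ i * g' ^ j : K ≃ₐ[k] K) b := ⟨_, rfl⟩
    have e4 : ∀ j, h (F j) = F (j + 1) := by
      intro j
      rw [hF]
      show h ((g ^ i * g' ^ j : K ≃ₐ[k] K) b) = (g ^ i * g' ^ (j + 1) : K ≃ₐ[k] K) b
      have h1 : g' * (g ^ i * g' ^ j) = g ^ i * g' ^ (j + 1) := by
        rw [← mul_assoc, ← (hcomm.pow_left i).eq, mul_assoc, ← pow_succ']
      rw [← h1, ← hga']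
      rfl
    have hFn : ∀ i, F i ≠ 0 := by
      intro i
      rw [hF]
      exact (map_ne_zero_iff _ (AlgEquiv.injective _)).2 hb0
    have e5 : F M = F 0 := by
      rw [hF]
      show (g ^ i * g' ^ M : K ≃ₐ[k] K) b = (g ^ i * g' ^ 0 : K ≃ₐ[k] K) b
      rw [hgM, pow_zero]
    have e6 : ∏ j ∈ Finset.range M, h (F j) = ∏ j ∈ Finset.range M, F j := by
      simp_rw [e4]
      have h1 := Finset.prod_range_succ F M
      rw [Finset.prod_range_succ', e5] at h1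
      exact mul_right_cancel₀ (hFn 0) h1
    rw [hF] at e6
    exact e6
  have hyN : y * N ∈ B := by
    have h1 : y * b = a := by rw [hyab, div_mul_cancel₀ _ hb0]
    have h2 : ∃ c ∈ B, N = b * c := by
      rw [hN, ← Finset.mul_prod_erase _ _ (Finset.mem_range.2 hn0),
        ← Finset.mul_prod_erase _ _ (Finset.mem_range.2 G.M0), mul_assoc]
      refine ⟨_, ?_, rfl⟩
      refine B.mul_mem (B.prod_mem fun j _ => hmem _ _) (B.prod_mem fun i _ => B.prod_mem fun j _ => hmem _ _)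
    obtain ⟨c, hc, hNc⟩ := h2
    rw [hNc, ← mul_assoc, h1]
    exact B.mul_mem ha hc
  refine ⟨y * N, hyN, mul_ne_zero hy0 hN0, ?_, ?_⟩
  · rw [map_mul, hy1, hN1]
  · rw [map_mul, hy2, hN2, mul_assoc]

end

theorem base : BaseStm.{u} := by
  intro k K _ _ _ γ h p M ω G 𝒱 Kf 𝒜 W T _ B H A
  have hω0 : ω ≠ 0 := G.om.ne_zero G.M0.ne'
  have h0 : ∀ x : K, h x = x → h x = algebraMap k K (ω ^ co3 (0 : G3)) * x := fun x hx => by
    rw [map_zero, zpow_zero, map_one, one_mul, hx]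
  have hq : ∀ t t', h (H t' / H t) = H t' / H t ∧ γ (H t' / H t) = H t' / H t := fun t t' =>
    ⟨by rw [map_div₀, A.Hh, A.Hh], by rw [map_div₀, A.Hg, A.Hg]⟩
  refine ⟨A.H0, fun t => (A.kf _).2 ⟨A.Hg t, A.Hh t⟩, fun t => ?_, fun t => ?_, fun t x hx => ?_,
    fun m a ha hm => ?_, fun t t' => ?_, fun t t' f hf => ?_, fun V hV => ?_, G.M0, fun t m => ?_,
    fun t => ?_⟩
  · refine gr_inf (gr_adjoin _ ?_) (gr_fx γ)
    rintro _ ⟨d, a, -, -, rfl⟩
    exact ⟨d, a, rfl⟩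
  · obtain ⟨a, ha⟩ := A.aa t
    refine ⟨a, fun x hx => ?_⟩
    obtain ⟨h1, h2, h3⟩ := ha x hx
    refine ⟨mo_mem_CB h ω (B t) 0 x h1 (h0 x h3), ?_⟩
    show gm G3 γ (mo 0 x) = mo 0 x
    rw [gm_mo, h2]
  · have h1 := (mem_CB h ω hω0 (B t) _).1 hx.1 0
    have h2 : gm G3 γ (mo 0 x) = mo 0 x := hx.2
    rw [gm_mo] at h2
    rw [coeff_mo_same] at h1
    refine (A.kf x).2 ⟨mo_inj h2, ?_⟩
    rw [h1.2, map_zero, zpow_zero, map_one, one_mul]
  · have h2 : gm G3 γ (mo m a) = mo m a := hm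
    rw [gm_mo] at h2
    show gm G3 γ (mo (-m) a⁻¹) = mo (-m) a⁻¹
    rw [gm_mo, map_inv₀, mo_inj h2]
  · refine ⟨mo_mem_CB h ω (B t) 0 _ (A.rt t t') (h0 _ (hq t t').1), ?_⟩
    show gm G3 γ (mo 0 _) = mo 0 _
    rw [gm_mo, (hq t t').2]
  · have hf' := (mem_CB h ω hω0 (B t') f).1 hf
    have h1 : ∀ d, ∃ n : ℕ, (H t' / H t) ^ n * f.coeff d ∈ B t := fun d => A.gl t t' _ (hf' d).1
    choose n hn using h1
    obtain ⟨n', hn'⟩ : ∃ n' : ℕ, n' = ∑ d ∈ f.coeff.support, n d := ⟨_, rfl⟩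
    refine ⟨n', (mem_CB h ω hω0 (B t) _).2 fun d => ?_⟩
    rw [mo_pow, smul_zero, coeff_mo_mul, sub_zero]
    refine ⟨?_, ?_⟩
    · by_cases hd : d ∈ f.coeff.support
      · have h2 : n d ≤ n' := by
          rw [hn']
          exact Finset.single_le_sum (f := n) (fun _ _ => Nat.zero_le _) hd
        rw [← Nat.sub_add_cancel h2, pow_add, mul_assoc]
        exact (B t).mul_mem ((B t).pow_mem (A.rt t t') _) (hn d)
      · rw [Finsupp.notMem_support_iff.1 hd, mul_zero]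
        exact (B t).zero_mem
    · rw [map_mul, map_pow, (hq t t').1, (hf' d).2]
      ring
  · obtain ⟨t, ht⟩ := A.cv V hV
    refine ⟨t, 1, fun _ => 1, one_pos, fun _ => one_ne_zero, fun _ _ => (one_mul 1).symm,
      fun f hf m => ?_⟩
    rw [pow_one]
    exact (V.valuation_le_one_iff _).2 (ht _ ((mem_CB h ω hω0 (B t) f).1 hf m).1)
  · have h1 : ∀ m : G3, algebraMap k K (ω ^ co3 (M • m)) = 1 := fun m => by
      rw [map_nsmul, nsmul_eq_mul, zpow_mul, zpow_natCast, G.om.pow_eq_one, one_zpow, map_one]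
    refine ⟨1, one_ne_zero, ⟨mo_mem_CB h ω (B t) _ 1 (B t).one_mem ?_, ?_⟩,
      ⟨mo_mem_CB h ω (B t) _ _ ?_ ?_, ?_⟩⟩
    · rw [h1, map_one, mul_one]
    · show gm G3 γ (mo _ _) = mo _ _
      rw [gm_mo, map_one]
    · rw [inv_one]
      exact (B t).one_mem
    · rw [← smul_neg, h1, inv_one, map_one, mul_one]
    · show gm G3 γ (mo _ _) = mo _ _
      rw [gm_mo, inv_one, map_one]
  · obtain ⟨y, hy, hy0, hy1, hy2⟩ := eigB γ h p M ω G (B t) (A.g t) (A.st t) (A.fr t)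
    rw [eq_top_iff]
    intro m _
    set Γ := AddSubgroup.closure {m : G3 | ∃ a : K, a ≠ 0 ∧ mo m a ∈ CB h ω (B t) ⊓ fx (gm G3 γ)}
      with hΓ
    have m1 : dg 1 0 0 ∈ Γ := by
      refine AddSubgroup.subset_closure ⟨1, one_ne_zero, mo_mem_CB h ω (B t) _ 1 (B t).one_mem ?_, ?_⟩
      · rw [co3_dg, zpow_zero, map_one, map_one, one_mul]
      · show gm G3 γ (mo _ _) = mo _ _
        rw [gm_mo, map_one]
    have m2 : dg 0 1 0 ∈ Γ := by
      refine AddSubgroup.subset_closure ⟨1, one_ne_zero, mo_mem_CB h ω (B t) _ 1 (B t).one_mem ?_, ?_⟩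
      · rw [co3_dg, zpow_zero, map_one, map_one, one_mul]
      · show gm G3 γ (mo _ _) = mo _ _
        rw [gm_mo, map_one]
    have m3 : dg 0 0 1 ∈ Γ := by
      refine AddSubgroup.subset_closure ⟨y, hy0, mo_mem_CB h ω (B t) _ y hy ?_, ?_⟩
      · rw [co3_dg, zpow_one, hy2]
      · show gm G3 γ (mo _ _) = mo _ _
        rw [gm_mo, hy1]
    have hm : m = m.1 • dg 1 0 0 + m.2.1 • dg 0 1 0 + m.2.2.1 • dg 0 0 1 := by
      obtain ⟨a, b, c, ⟨⟩⟩ := m
      ext <;> simp [dg]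
    rw [hm]
    exact Γ.add_mem (Γ.add_mem (Γ.zsmul_mem m1 _) (Γ.zsmul_mem m2 _)) (Γ.zsmul_mem m3 _)

end Pool.Agent.W338.ET
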