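import Pool.Agent.W559.Et.Stm6

/-! # Spreading out linear etale coordinates (ET-SPREAD) -/

set_option autoImplicit false

universe u

namespace Pool.Agent.W338.ET

open Pool.Agent.W559.Mg Pool.Agent.W559.Et MvPolynomial

theorem spread_aux (P S O : Type u) [CommRing P] [CommRing S] [CommRing O] [Algebra P S]
    [Algebra S O] [Algebra P O] [IsScalarTower P S O] [Algebra.FinitePresentation P S]
    (q : Ideal S) [q.IsPrime] [IsLocalization.AtPrime O q] [Algebra.FormallyEtale P O] :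
    ∃ f1 : S, f1 ∉ q ∧ ∀ c : S, ∀ (A : Type u) [CommRing A] [Algebra S A] [Algebra P A]
      [IsScalarTower P S A] [IsLocalization.Away (f1 * c) A], Algebra.Etale P A := by
  have h1 : Algebra.IsEtaleAt P q :=
    Algebra.FormallyEtale.of_equiv
      ((IsLocalization.algEquiv q.primeCompl O (Localization.AtPrime q)).restrictScalars P)
  obtain ⟨f1, hf1, het⟩ := Algebra.exists_etale_of_isEtaleAt (R := P) q
  refine ⟨f1, hf1, fun c A _ _ _ _ _ => ?_⟩
  have h2 : ((PrimeSpectrum.basicOpen f1 : TopologicalSpace.Opens (PrimeSpectrum S)) :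
      Set (PrimeSpectrum S)) ⊆ Algebra.etaleLocus P S :=
    Algebra.basicOpen_subset_etaleLocus_iff_etale.2 het
  have h3 : ((PrimeSpectrum.basicOpen (f1 * c) : TopologicalSpace.Opens (PrimeSpectrum S)) :
      Set (PrimeSpectrum S)) ⊆ Algebra.etaleLocus P S :=
    Set.Subset.trans (PrimeSpectrum.basicOpen_mul_le_left f1 c) h2
  have h4 : Algebra.Etale P (Localization.Away (f1 * c)) :=
    Algebra.basicOpen_subset_etaleLocus_iff_etale.1 h3
  exact Algebra.Etale.of_equiv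
    ((IsLocalization.algEquiv (Submonoid.powers (f1 * c)) (Localization.Away (f1 * c))
      A).restrictScalars P)

section

variable {k L : Type u} [Field k] [Field L] [Algebra k L]

theorem step1 {n : ℕ} (S O : Subalgebra k L) (hSO : S ≤ O) [IsLocalRing O]
    (hfp : Algebra.FinitePresentation k S) (y : Fin n → O) (hyS : ∀ i, (y i : L) ∈ S)
    (het : ((aeval y : MvPolynomial (Fin n) k →ₐ[k] O).toRingHom).FormallyEtale)
    (hs : ∀ z ∈ O, ∃ a ∈ S, ∃ b ∈ S, b ≠ 0 ∧ b⁻¹ ∈ O ∧ z * b = a) :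
    ∃ f1 ∈ S, f1 ≠ 0 ∧ f1⁻¹ ∈ O ∧ ∀ f c : L, c ∈ S → f = f1 * c → f ≠ 0 →
      ∀ (A : Subalgebra k L) (hSA : S ≤ A) (_ : f⁻¹ ∈ A), (∀ z ∈ A, ∃ m : ℕ, f ^ m * z ∈ S) →
      ((aeval (fun i => (⟨y i, hSA (hyS i)⟩ : A)) :
        MvPolynomial (Fin n) k →ₐ[k] A).toRingHom).Etale := by
  obtain ⟨yS, hyS'⟩ : ∃ yS : Fin n → S, yS = fun i => ⟨y i, hyS i⟩ := ⟨_, rfl⟩
  let _ : Algebra (MvPolynomial (Fin n) k) S := (aeval yS : _ →ₐ[k] S).toRingHom.toAlgebra
  let _ : Algebra (MvPolynomial (Fin n) k) O := (aeval y : _ →ₐ[k] O).toRingHom.toAlgebra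
  let _ : Algebra S O := (Subalgebra.inclusion hSO).toRingHom.toAlgebra
  have hcomp : ∀ (A : Subalgebra k L) (hSA : S ≤ A),
      (Subalgebra.inclusion hSA).comp (aeval yS) =
        aeval (fun i => (⟨y i, hSA (hyS i)⟩ : A)) := by
    intro A hSA
    refine MvPolynomial.algHom_ext fun i => ?_
    rw [AlgHom.comp_apply, aeval_X, aeval_X, hyS']
    rfl
  have _ : IsScalarTower (MvPolynomial (Fin n) k) S O :=
    IsScalarTower.of_algebraMap_eq fun r => (DFunLike.congr_fun (hcomp O hSO) r).symm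
  have _ : IsScalarTower k (MvPolynomial (Fin n) k) S :=
    IsScalarTower.of_algebraMap_eq fun r => ((aeval yS : _ →ₐ[k] S).commutes r).symm
  have _ : Algebra.FinitePresentation (MvPolynomial (Fin n) k) S :=
    Algebra.FinitePresentation.of_restrict_scalars_finitePresentation k _ _
  have _ : Algebra.FormallyEtale (MvPolynomial (Fin n) k) O := het
  obtain ⟨q, hq⟩ : ∃ q : Ideal S, q = (IsLocalRing.maximalIdeal O).comap (algebraMap S O) :=
    ⟨_, rfl⟩
  have _ : q.IsPrime := by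
    rw [hq]
    exact Ideal.comap_isPrime _ _
  have hunit : ∀ s : S, s ∉ q ↔ IsUnit (algebraMap S O s) := by
    intro s
    rw [hq, Ideal.mem_comap, IsLocalRing.mem_maximalIdeal, mem_nonunits_iff, not_not]
  have hinv : ∀ z : O, IsUnit z ↔ ((z : L) ≠ 0 ∧ (z : L)⁻¹ ∈ O) := by
    intro z
    constructor
    · intro hz
      obtain ⟨w, hw⟩ := hz.exists_right_inv
      have h1 : (z : L) * w = 1 := congrArg Subtype.val hw
      have h2 : (z : L) ≠ 0 := left_ne_zero_of_mul_eq_one h1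
      refine ⟨h2, ?_⟩
      rw [← eq_inv_of_mul_eq_one_right h1]
      exact w.2
    · rintro ⟨h1, h2⟩
      refine IsUnit.of_mul_eq_one ⟨_, h2⟩ (Subtype.ext ?_)
      exact mul_inv_cancel₀ h1
  have hloc : IsLocalization.AtPrime O q := by
    refine (isLocalization_iff q.primeCompl O).2 ⟨fun s => (hunit s).1 s.2, fun z => ?_, ?_⟩
    · obtain ⟨a, ha, b, hb, hb0, hbi, hz⟩ := hs z z.2
      refine ⟨(⟨a, ha⟩, ⟨⟨b, hb⟩, ?_⟩), Subtype.ext hz⟩
      exact (hunit _).2 ((hinv _).2 ⟨hb0, hbi⟩)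
    · intro x x' hx
      have h1 : (x : L) = x' := congrArg (fun z : O => (z : L)) hx
      exact ⟨1, by rw [Subtype.ext h1]⟩
  obtain ⟨f1, hf1, hall⟩ := spread_aux (MvPolynomial (Fin n) k) S O q
  obtain ⟨h10, h1i⟩ := (hinv _).1 ((hunit f1).1 hf1)
  refine ⟨f1, f1.2, h10, h1i, fun f c hc hfc hf0 A hSA hfi hA => ?_⟩
  let _ : Algebra S A := (Subalgebra.inclusion hSA).toRingHom.toAlgebra
  let _ : Algebra (MvPolynomial (Fin n) k) A :=
    (aeval (fun i => (⟨y i, hSA (hyS i)⟩ : A)) : _ →ₐ[k] A).toRingHom.toAlgebra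
  have _ : IsScalarTower (MvPolynomial (Fin n) k) S A :=
    IsScalarTower.of_algebraMap_eq fun r => (DFunLike.congr_fun (hcomp A hSA) r).symm
  have _ : IsLocalization.Away (f1 * (⟨c, hc⟩ : S)) A := by
    refine IsLocalization.Away.mk _ ?_ ?_ ?_
    · refine IsUnit.of_mul_eq_one ⟨_, hfi⟩ (Subtype.ext ?_)
      show (f1 : L) * c * f⁻¹ = 1
      rw [← hfc, mul_inv_cancel₀ hf0]
    · intro z
      obtain ⟨m, hm⟩ := hA z z.2
      refine ⟨m, ⟨_, hm⟩, Subtype.ext ?_⟩
      show (z : L) * ((f1 : L) * c) ^ m = f ^ m * z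
      rw [hfc, mul_comm]
    · intro a b hab
      have h3 : (a : L) = b := congrArg (fun z : A => (z : L)) hab
      exact ⟨0, by rw [Subtype.ext h3]⟩
  exact hall ⟨c, hc⟩ A

end

theorem spread : SpreadStm.{u} := by
  classical
  intro k L _ _ _ B hB ρ N hN hρN hρB hlin q hq hfix
  -- the action modulo `q`
  have hmod : ∀ c : B, (⟨ρ c - c, B.sub_mem (hρB c c.2) c.2⟩ : B) ∈ q := fun c =>
    hfix c c.2 _
  obtain ⟨r, hr⟩ : ∃ r : B → B, r = fun c => ⟨ρ c, hρB c c.2⟩ := ⟨_, rfl⟩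
  have hrv : ∀ c : B, ((r c : B) : L) = ρ c := fun c => by rw [hr]
  have hrmod : ∀ c : B, r c - c ∈ q := fun c => by
    have h1 := hmod c
    have h2 : (⟨ρ c - c, B.sub_mem (hρB c c.2) c.2⟩ : B) = r c - c := Subtype.ext (by
      show ρ c - c = ((r c : B) : L) - c
      rw [hrv])
    rwa [h2] at h1
  have hrn : ∀ c : B, c ∉ q → r c ∉ q := fun c hc h => hc (by
    have h1 := q.sub_mem h (hrmod c)
    rwa [sub_sub_cancel] at h1)
  have hne : ∀ c : B, c ∉ q → (c : L) ≠ 0 := fun c hc h => hc (by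
    have : c = 0 := Subtype.ext h
    rw [this]
    exact q.zero_mem)
  obtain ⟨O, hO⟩ : ∃ O : Subalgebra k L, O = locR B q hq := ⟨_, rfl⟩
  have memO : ∀ x : L, x ∈ O ↔ ∃ a b : B, b ∉ q ∧ x * b = a := fun x => by
    rw [hO]
    exact Iff.rfl
  have hlin' := hlin q hq
  rw [← hO] at hlin'
  have hprem : ∀ x ∈ O, ρ x ∈ O ∧ ∀ x' ∈ O, (ρ x - x) * x' ≠ 1 := by
    intro x hx
    obtain ⟨a, b, hb, hab⟩ := (memO x).1 hx
    have hρ : ρ x * (r b : B) = (r a : B) := by
      rw [hrv, hrv, ← map_mul, hab]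
    refine ⟨(memO _).2 ⟨r a, r b, hrn b hb, hρ⟩, ?_⟩
    intro x' hx' h1
    obtain ⟨a', b', hb', hab'⟩ := (memO x').1 hx'
    -- (ρ x - x) * b * ρ b ∈ q
    have h2 : (r a - a) * b - a * (r b - b) ∈ q :=
      q.sub_mem (q.mul_mem_right _ (hrmod a)) (q.mul_mem_left _ (hrmod b))
    have h3 : ((r a - a) * b - a * (r b - b)) * a' = b * r b * b' := by
      apply Subtype.ext
      have e1 : (((r a - a) * b - a * (r b - b) : B) : L) = (ρ x - x) * (b * (r b : B)) := by
        push_cast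
        linear_combination (-(b : L)) * hρ + ((r b : B) : L) * hab
      show (((r a - a) * b - a * (r b - b) : B) : L) * (a' : L) = (b : L) * (r b : B) * (b' : L)
      rw [e1]
      linear_combination ((b : L) * (r b : B) * b') * h1 - ((ρ x - x) * (b * (r b : B))) * hab'
    have h4 : b * r b * b' ∈ q := by
      rw [← h3]
      exact q.mul_mem_right _ h2
    exact hq.mul_notMem (hq.mul_notMem hb (hrn b hb)) hb' h4
  obtain ⟨n, y, hyet, hyρ⟩ := hlin' hprem
  -- common denominator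
  have hden : ∀ i : Fin n, ∃ a b : B, b ∉ q ∧ (y i : L) * b = a := fun i => (memO _).1 (y i).2
  choose ya yb hyb hyab using hden
  obtain ⟨g, hg⟩ : ∃ g : B, g = ∏ i, yb i := ⟨_, rfl⟩
  have hgq : g ∉ q := by
    rw [hg]
    refine Finset.prod_induction yb (fun z => z ∉ q) (fun a b ha hb => hq.mul_notMem ha hb)
      (fun h => hq.ne_top ((Ideal.eq_top_iff_one q).2 h)) fun i _ => hyb i
  have hyg : ∀ i, (y i : L) * g ∈ B := by
    intro i
    rw [hg, ← Finset.mul_prod_erase _ _ (Finset.mem_univ i)]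
    push_cast
    rw [← mul_assoc, hyab]
    exact B.mul_mem (ya i).2 (B.prod_mem fun j _ => (yb j).2)
  have hBO : B ≤ O := fun x hx => (memO x).2 ⟨⟨x, hx⟩, 1, fun h =>
    hq.ne_top ((Ideal.eq_top_iff_one q).2 h), by simp⟩
  have hinvO : ∀ b : B, b ∉ q → ((b : L))⁻¹ ∈ O := fun b hb => (memO _).2 ⟨1, b, hb, by
    rw [inv_mul_cancel₀ (hne b hb)]
    rfl⟩
  have hunitB : ∀ b : B, ((b : L))⁻¹ ∈ O → (b : L) ≠ 0 → b ∉ q := by
    intro b hb hb0 hbq
    obtain ⟨a', b', hb', hab'⟩ := (memO _).1 hb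
    apply hb'
    have : b' = b * a' := by
      apply Subtype.ext
      show (b' : L) = b * a'
      rw [← hab', ← mul_assoc, mul_inv_cancel₀ hb0, one_mul]
    rw [this]
    exact q.mul_mem_right _ hbq
  -- the local ring
  have hOloc : IsLocalRing O := by
    let _ : Algebra B O := (Subalgebra.inclusion hBO).toRingHom.toAlgebra
    have : IsLocalization.AtPrime O q := by
      refine (isLocalization_iff q.primeCompl O).2 ⟨fun s => ?_, fun z => ?_, ?_⟩
      · refine IsUnit.of_mul_eq_one ⟨_, hinvO s s.2⟩ (Subtype.ext ?_)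
        exact mul_inv_cancel₀ (hne s s.2)
      · obtain ⟨a, b, hb, hz⟩ := (memO z).1 z.2
        exact ⟨(a, ⟨b, hb⟩), Subtype.ext hz⟩
      · intro x x' hx
        have h1 : (x : L) = x' := congrArg (fun z : O => (z : L)) hx
        exact ⟨1, by rw [Subtype.ext h1]⟩
    exact IsLocalization.AtPrime.isLocalRing O q
  obtain ⟨S, hS⟩ : ∃ S : Subalgebra k L, S = lc B (g : L) g.2 := ⟨_, rfl⟩
  have memS : ∀ x : L, x ∈ S ↔ ∃ m : ℕ, (g : L) ^ m * x ∈ B := fun x => by
    rw [hS]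
    exact Iff.rfl
  have hBS : B ≤ S := by
    rw [hS]
    exact le_lc _ _ _
  have hSfp : Algebra.FinitePresentation k S := by
    have h1 : Algebra.Smooth k S := by
      rw [hS]
      exact smooth_lc hB g.2 (IsUnit.mk0 _ (hne g hgq))
    exact h1.finitePresentation
  have hpow : ∀ (m : ℕ) (b : B), b ∉ q → b ^ m ∉ q := fun m b hb h => hb (hq.mem_of_pow_mem m h)
  have hSO : S ≤ O := by
    intro x hx
    obtain ⟨m, hm⟩ := (memS x).1 hx
    refine (memO x).2 ⟨⟨_, hm⟩, g ^ m, hpow m g hgq, ?_⟩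
    push_cast
    ring
  have hyS : ∀ i, (y i : L) ∈ S := fun i => (memS _).2 ⟨1, by
    rw [pow_one, mul_comm]
    exact hyg i⟩
  obtain ⟨f1, hf1S, hf10, hf1i, hall⟩ := step1 S O hSO hSfp y hyS hyet (by
    intro z hz
    obtain ⟨a, b, hb, hab⟩ := (memO z).1 hz
    exact ⟨a, hBS a.2, b, hBS b.2, hne b hb, hinvO b hb, hab⟩)
  obtain ⟨j, hj⟩ := (memS f1).1 hf1S
  -- the element of `B`
  obtain ⟨w, hw⟩ : ∃ w : B, w = g * ⟨_, hj⟩ := ⟨_, rfl⟩
  have hwv : (w : L) = g * ((g : L) ^ j * f1) := by rw [hw]; rfl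
  have hwq : w ∉ q := by
    rw [hw]
    refine hq.mul_notMem hgq (hunitB _ ?_ ?_)
    · show ((g : L) ^ j * f1)⁻¹ ∈ O
      rw [mul_inv]
      refine O.mul_mem ?_ hf1i
      have := hinvO (g ^ j) (hpow j g hgq)
      push_cast at this
      exact this
    · exact mul_ne_zero (pow_ne_zero _ (hne g hgq)) hf10
  obtain ⟨f, hf⟩ : ∃ f : B, f = ∏ i ∈ Finset.range N, r^[i] w := ⟨_, rfl⟩
  have hrw : ∀ i : ℕ, r^[i] w ∉ q := by
    intro i
    induction i with
    | zero => exact hwq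
    | succ i ih =>
      rw [Function.iterate_succ_apply']
      exact hrn _ ih
  have hrv' : ∀ i : ℕ, ((r^[i] w : B) : L) = ρ^[i] w := by
    intro i
    induction i with
    | zero => rfl
    | succ i ih => rw [Function.iterate_succ_apply', Function.iterate_succ_apply', hrv, ih]
  have hfq : f ∉ q := by
    rw [hf]
    exact Finset.prod_induction _ (fun z => z ∉ q) (fun a b ha hb => hq.mul_notMem ha hb)
      (fun h => hq.ne_top ((Ideal.eq_top_iff_one q).2 h)) fun i _ => hrw i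
  have hfv : (f : L) = ∏ i ∈ Finset.range N, ρ^[i] w := by
    rw [hf]
    push_cast
    exact Finset.prod_congr rfl fun i _ => hrv' i
  have hρf : ρ f = f := by
    rw [hfv, map_prod]
    have h1 := Finset.prod_range_succ (fun i => ρ^[i] (w : L)) N
    rw [Finset.prod_range_succ', hρN] at h1
    have h2 := mul_right_cancel₀ (hne w hwq) h1
    rw [← h2]
    exact Finset.prod_congr rfl fun i _ => (Function.iterate_succ_apply' ρ i _).symm
  obtain ⟨c, hc⟩ : ∃ c : B, f = w * c := by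
    obtain ⟨N', rfl⟩ : ∃ N', N = N' + 1 := ⟨N - 1, by omega⟩
    refine ⟨∏ i ∈ Finset.range N', r^[i + 1] w, ?_⟩
    rw [hf, Finset.prod_range_succ', mul_comm]
    rfl
  have hSA : S ≤ lc B (f : L) f.2 := by
    intro x hx
    obtain ⟨m, hm⟩ := (memS x).1 hx
    refine ⟨m, ?_⟩
    have e1 : (f : L) ^ m * x = (((g : L) ^ j * f1) * c) ^ m * ((g : L) ^ m * x) := by
      rw [hc]
      push_cast
      rw [hwv, mul_pow, mul_pow, mul_pow]
      ring
    rw [e1]
    exact B.mul_mem (B.pow_mem (B.mul_mem hj c.2) m) hm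
  refine ⟨f, f.2, hfq, hρf, n, fun i => ⟨y i, hSA (hyS i)⟩, ?_⟩
  have het := hall (f : L) ((g : L) * (g : L) ^ j * c)
    (S.mul_mem (S.mul_mem (hBS g.2) (S.pow_mem (hBS g.2) j)) (hBS c.2)) (by
      rw [hc]
      push_cast
      rw [hwv]
      ring) (hne f hfq) (lc B (f : L) f.2) hSA
    (inv_mem_lc B _ _ f.2 (mul_inv_cancel₀ (hne f hfq))) (by
      rintro z ⟨m, hm⟩
      exact ⟨m, hBS hm⟩)
  -- the matrix
  have hmat : ∀ i, ∃ c : Fin n → k, ∑ j, c j • (y j : L) = ρ (y i) := fun i =>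
    (Submodule.mem_span_range_iff_exists_fun k).1 (hyρ i)
  choose t ht using hmat
  refine ⟨Matrix.toLin' (Matrix.of fun j i => t i j), het, fun v => ?_⟩
  show ρ (∑ i, v i • (y i : L)) =
    ∑ i, (Matrix.toLin' (Matrix.of fun j i => t i j) v) i • (y i : L)
  rw [map_sum]
  simp_rw [map_smul, ← ht, Matrix.toLin'_apply, Matrix.mulVec, dotProduct, Matrix.of_apply,
    Finset.sum_smul, Finset.smul_sum, smul_smul]
  rw [Finset.sum_comm]
  refine Finset.sum_congr rfl fun i _ => Finset.sum_congr rfl fun j _ => ?_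
  rw [mul_comm]

end Pool.Agent.W338.ET
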